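import Mathlib
import Pool.Agent.N988.ES.Defs

/-!
# The most-pivotal-site algorithm on hierarchical lattices: definitions

An edge `e` is open if `w e = false`, which has the probability `p` under `iid (coin (1 - p)) b n`;
`cross w = 1` if and only if the two ends of `H n` are joined by open edges
(`Pool.Agent.N988.ES.Defs`), `piv w` is the set of the pivotal edges.
-/

open MeasureTheory
open Pool.Agent.N988.EA Pool.Agent.N988.EC Pool.Agent.N988.EP Pool.Agent.N988.ES

namespace Pool.Agent.N988.ET

noncomputable section

/-- The configuration `w` agrees with the revealed states `a` (`none`: not revealed). -/
def Fits {b n : ℕ} (a : Edge b n → Option Bool) (w : Edge b n → Bool) : Prop :=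
  ∀ e x, a e = some x → w e = x

/-- The revealed states determine whether the ends are joined. -/
def Known {b n : ℕ} (a : Edge b n → Option Bool) : Prop :=
  ∀ w w', Fits a w → Fits a w' → cross w = cross w'

/-- The probability that the configuration agrees with the revealed states and `e` is pivotal; for
given `a` it is proportional to the conditional probability that `e` is pivotal. -/
def pp {b n : ℕ} (p : ℝ) (a : Edge b n → Option Bool) (e : Edge b n) : ℝ :=
  (iid (coin (1 - p)) b n).real {w | Fits a w ∧ e ∈ piv w}

/-- `e` is an edge with the largest conditional probability of being pivotal among the edges which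
are not revealed. -/
def Best {b n : ℕ} (p : ℝ) (a : Edge b n → Option Bool) (e : Edge b n) : Prop :=
  a e = none ∧ ∀ e', a e' = none → pp p a e' ≤ pp p a e

/-- Algorithms: stop, or query `i` and go on in the first way if the answer is `false` and in the
second way if it is `true`. -/
inductive Tree (ι : Type) : Type
  | stop : Tree ι
  | ask : ι → Tree ι → Tree ι → Tree ι

open Classical in
/-- From the revealed states `a` on the algorithm queries always an edge with the largest
conditional probability of being pivotal, and stops as soon as the crossing is known. -/
def Runs {b n : ℕ} (p : ℝ) : Tree (Edge b n) → (Edge b n → Option Bool) → Prop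
  | .stop, a => Known a
  | .ask e t u, a => ¬ Known a ∧ Best p a e ∧ Runs p t (Function.update a e (some false)) ∧
      Runs p u (Function.update a e (some true))

/-- The number of the queries for the configuration `w`. -/
def steps {ι : Type} : Tree ι → (ι → Bool) → ℕ
  | .stop, _ => 0
  | .ask i t u, w => 1 + if w i then steps u w else steps t w

end

end Pool.Agent.N988.ET
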