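import Mathlib
import Pool.Agent.N988.ET.Defs
import Pool.Agent.N988.ES.Stm

/-!
# The most-pivotal-site algorithm on hierarchical lattices: statements of the parts
-/

open MeasureTheory Set Filter
open scoped Topology
open Pool.Agent.N988.EA Pool.Agent.N988.EC Pool.Agent.N988.EP Pool.Agent.N988.ES

namespace Pool.Agent.N988.ET

noncomputable section

/-- `p` is the fixed point for `b` branches. -/
structure Crit (b : ℕ) (p : ℝ) : Prop where
  two : 2 ≤ b
  pos : 0 < p
  lt : p < 1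
  fix : 1 - (1 - p ^ 2) ^ b = p

/-- The probability of the revealed states. -/
def pf {b n : ℕ} (p : ℝ) (a : Edge b n → Option Bool) : ℝ :=
  (iid (coin (1 - p)) b n).real {w | Fits a w}

/-- The probability of the revealed states and the crossing. -/
def px {b n : ℕ} (p : ℝ) (a : Edge b n → Option Bool) : ℝ :=
  (iid (coin (1 - p)) b n).real {w | Fits a w ∧ cross w = 1}

/-- The revealed states of the half `s` of the branch `i`. -/
def cs {b n : ℕ} (a : Edge b (n + 1) → Option Bool) (i : Fin b) (s : Bool) :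
    Edge b n → Option Bool := fun e => a (i, s, e)

/-- Nothing is revealed. -/
def fresh (b n : ℕ) : Edge b n → Option Bool := fun _ => none

/-- The pivotality of a half. -/
def rho (b : ℕ) (p : ℝ) : ℝ := p * (1 - p ^ 2) ^ (b - 1)

/-- The mean number of the queries. -/
def cost {ι : Type} (p : ℝ) : Tree ι → ℝ
  | .stop => 0
  | .ask _ t u => 1 + p * cost p t + (1 - p) * cost p u

open Classical in
/-- M1a, S_B1 (probabilities). (5) Two configurations which agree with `a` and differ in `cross` are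
joined by changes of single unrevealed edges. -/
def S_B1 : Prop := ∀ (b n : ℕ), 1 ≤ b → ∀ p : ℝ, 0 < p → p < 1 →
  (∀ a : Edge b n → Option Bool, 0 < pf p a ∧ 0 ≤ px p a ∧ px p a ≤ pf p a) ∧
  (∀ (a : Edge b n → Option Bool) (e : Edge b n), a e = none →
    pf p (Function.update a e (some false)) = p * pf p a ∧
    pf p (Function.update a e (some true)) = (1 - p) * pf p a ∧
    px p (Function.update a e (some false)) + px p (Function.update a e (some true)) = px p a) ∧
  (∀ a : Edge b n → Option Bool, Known a ↔ px p a = 0 ∨ px p a = pf p a) ∧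
  (∀ (a : Edge b n → Option Bool) (e : Edge b n), 0 ≤ pp p a e ∧
    (a e = none → Known a → pp p a e = 0)) ∧
  (∀ a : Edge b n → Option Bool, ¬ Known a → ∃ e, a e = none ∧ 0 < pp p a e)

/-- M1b, S_B2 (algorithms). (1) By induction on the number of unrevealed edges. (2) In `ask e t u`
the algorithms `t`, `u` do not query `e` again. -/
def S_B2 : Prop := ∀ (b n : ℕ), 1 ≤ b → ∀ p : ℝ, 0 < p → p < 1 →
  (∀ a : Edge b n → Option Bool, ∃ t, Runs p t a) ∧
  (∀ (t : Tree (Edge b n)) (a : Edge b n → Option Bool), Runs p t a →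
    ∫ w, (steps t w : ℝ) ∂(iid (coin (1 - p)) b n) = cost p t)

open Classical in
/-- M1, S_BAS: `S_B1` and `S_B2` together. -/
def S_BAS : Prop := ∀ (b n : ℕ), 1 ≤ b → ∀ p : ℝ, 0 < p → p < 1 →
  (∀ a : Edge b n → Option Bool, 0 < pf p a ∧ 0 ≤ px p a ∧ px p a ≤ pf p a) ∧
  (∀ (a : Edge b n → Option Bool) (e : Edge b n), a e = none →
    pf p (Function.update a e (some false)) = p * pf p a ∧
    pf p (Function.update a e (some true)) = (1 - p) * pf p a ∧
    px p (Function.update a e (some false)) + px p (Function.update a e (some true)) = px p a) ∧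
  (∀ a : Edge b n → Option Bool, Known a ↔ px p a = 0 ∨ px p a = pf p a) ∧
  (∀ (a : Edge b n → Option Bool) (e : Edge b n), 0 ≤ pp p a e ∧
    (a e = none → Known a → pp p a e = 0)) ∧
  (∀ a : Edge b n → Option Bool, ¬ Known a → ∃ e, a e = none ∧ 0 < pp p a e) ∧
  (∀ a : Edge b n → Option Bool, ∃ t, Runs p t a) ∧
  (∀ (t : Tree (Edge b n)) (a : Edge b n → Option Bool), Runs p t a →
    ∫ w, (steps t w : ℝ) ∂(iid (coin (1 - p)) b n) = cost p t)

theorem t_BAS (h1 : S_B1) (h2 : S_B2) : S_BAS := fun b n hb p hp hp' =>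
  ⟨(h1 b n hb p hp hp').1, (h1 b n hb p hp hp').2.1, (h1 b n hb p hp hp').2.2.1,
    (h1 b n hb p hp hp').2.2.2.1, (h1 b n hb p hp hp').2.2.2.2, (h2 b n hb p hp hp').1,
    (h2 b n hb p hp hp').2⟩

/-- M2, S_PROD (product formulas; from `Pool.Agent.N988.EP.k_CUR` and `S_PIV`). -/
def S_PROD : Prop := ∀ (b n : ℕ), 1 ≤ b → ∀ p : ℝ, 0 < p → p < 1 →
  ∀ a : Edge b (n + 1) → Option Bool,
  pf p a = ∏ i, (pf p (cs a i false) * pf p (cs a i true)) ∧
  px p a = ∏ i, (pf p (cs a i false) * pf p (cs a i true)) -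
    ∏ i, (pf p (cs a i false) * pf p (cs a i true) -
      px p (cs a i false) * px p (cs a i true)) ∧
  ∀ (i : Fin b) (s : Bool) (e : Edge b n), pp p a ((i, s, e) : Edge b (n + 1)) =
    pp p (cs a i s) e * px p (cs a i (!s)) *
      ∏ j ∈ Finset.univ.erase i, (pf p (cs a j false) * pf p (cs a j true) -
        px p (cs a j false) * px p (cs a j true))

/-- M3, S_FR (nothing revealed; from `S_PROD` by induction). -/
def S_FR : Prop := ∀ (b : ℕ) (p : ℝ), Crit b p → ∀ n : ℕ,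
  pf p (fresh b n) = 1 ∧ px p (fresh b n) = p ∧ ∀ e, pp p (fresh b n) e = rho b p ^ n

/-- The branches in `F` are fresh, the other branches except `i` are closed. -/
def Ctx {b n : ℕ} (p : ℝ) (F : Finset (Fin b)) (i : Fin b) (a : Edge b (n + 1) → Option Bool) :
    Prop :=
  i ∉ F ∧ (∀ j ∈ F, ∀ s, cs a j s = fresh b n) ∧
    ∀ j, j ∉ F → j ≠ i → px p (cs a j false) = 0 ∨ px p (cs a j true) = 0

/-- M4, S_FAC (factors; from `S_BAS`, `S_PROD`, `S_FR`), with `c` the product of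
`pf (cs a j false) * pf (cs a j true)` over the closed branches `j`. -/
def S_FAC : Prop := ∀ (b : ℕ) (p : ℝ), Crit b p → ∀ (n : ℕ) (F : Finset (Fin b)) (i : Fin b)
  (a : Edge b (n + 1) → Option Bool), Ctx p F i a → ∃ c : ℝ, 0 < c ∧
  pf p a = c * (pf p (cs a i false) * pf p (cs a i true)) ∧
  pf p a - px p a = c * (1 - p ^ 2) ^ F.card *
    (pf p (cs a i false) * pf p (cs a i true) - px p (cs a i false) * px p (cs a i true)) ∧
  (∀ s e, pp p a ((i, s, e) : Edge b (n + 1)) =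
    c * (1 - p ^ 2) ^ F.card * (pp p (cs a i s) e * px p (cs a i (!s)))) ∧
  (∀ j ∈ F, ∀ s e, pp p a ((j, s, e) : Edge b (n + 1)) =
    c * (1 - p ^ 2) ^ (F.card - 1) * (rho b p ^ n * p) *
    (pf p (cs a i false) * pf p (cs a i true) - px p (cs a i false) * px p (cs a i true))) ∧
  ∀ j, j ∉ F → j ≠ i → ∀ s e, a ((j, s, e) : Edge b (n + 1)) = none →
    pp p a ((j, s, e) : Edge b (n + 1)) = 0

/-- An edge is pivotal with a large conditional probability. With `x = px / pf`, `y = pp / pf`: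
`y ≥ ρ ^ n (1 - x) / (1 - p)`, `y > ρ ^ n x / p`, `y > ρ ^ n`. -/
def Ineq {b n : ℕ} (p : ℝ) (a : Edge b n → Option Bool) : Prop :=
  ∃ e, a e = none ∧ rho b p ^ n * (pf p a - px p a) ≤ (1 - p) * pp p a e ∧
    rho b p ^ n * px p a < p * pp p a e ∧ rho b p ^ n * pf p a < pp p a e

/-- M5, S_D1 (one half of the branch `i` is active, the other one fresh; from `S_BAS`, `S_FR`,
`S_FAC`). Divide by `pf`; `x = px / pf` of the active half, `0 < x < 1`, `y` its largest `pp / pf`,
`k = F.card ≤ b - 1`, `q = 1 - p ^ 2`, `q ^ b = 1 - p`, `ρ = p q ^ (b - 1)`. In the active half the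
largest value is `p q ^ k y`; in the other half `x q ^ k ρ ^ n`, smaller as `y > ρ ^ n x / p`; in a
fresh branch `p (1 - x p) q ^ (k - 1) ρ ^ n`, smaller because
`(1 - x p) / q ≤ max 1 ((1 - x) / (1 - p))` with equality only for `x = p`, and `y > ρ ^ n`,
`y ≥ ρ ^ n (1 - x) / (1 - p)`; zero in closed branches. `Ineq p a`, with `X = 1 - (1 - x p) q ^ k`:
`p q ^ k y > p q ^ k ρ ^ n ≥ ρ ^ (n + 1)`; `X / p ≤ 1 + ρ (x / p - 1) ≤ max 1 (x / p)`, so
`p q ^ k y > ρ ^ (n + 1) X / p`; and `(1 - X) / (1 - p) ρ ^ (n + 1) = p q ^ k ρ ^ n (1 - x p) / q`. -/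
def S_D1 : Prop := ∀ (b : ℕ) (p : ℝ), Crit b p → ∀ (n : ℕ) (F : Finset (Fin b)) (i : Fin b)
  (s : Bool) (a : Edge b (n + 1) → Option Bool), Ctx p F i a → cs a i (!s) = fresh b n →
  ¬ Known (cs a i s) → Ineq p (cs a i s) →
  ¬ Known a ∧ Ineq p a ∧ ∀ e, Best p a e → ∃ e', e = ((i, s, e') : Edge b (n + 1)) ∧
    Best p (cs a i s) e'

/-- M6, S_D2 (one half of the branch `i` is active or fresh, the other one open; from `S_BAS`,
`S_FR`, `S_FAC`). As before; in the active half the largest value is `q ^ k y`; in a fresh branch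
`p (1 - x) q ^ (k - 1) ρ ^ n`, smaller since `y ≥ ρ ^ n (1 - x) / (1 - p)`, `q / (1 - p) = 1 + p`,
`x < 1`. `Ineq p a`, with `X = 1 - (1 - x) q ^ k ≤ 1`: `q ^ k y ≥ q ^ k ρ ^ n > ρ ^ (n + 1)`,
`q ^ k y ≥ q ^ k ρ ^ n > ρ ^ n q ^ (b - 1) X` (`x < 1`), `q ^ k y ≥ ρ ^ (n + 1) (1 - X) / (1 - p)`.
If the active half is fresh then `x = p`, `y = ρ ^ n`. -/
def S_D2 : Prop := ∀ (b : ℕ) (p : ℝ), Crit b p → ∀ (n : ℕ) (F : Finset (Fin b)) (i : Fin b)
  (s : Bool) (a : Edge b (n + 1) → Option Bool), Ctx p F i a →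
  px p (cs a i (!s)) = pf p (cs a i (!s)) →
  ¬ Known (cs a i s) → (cs a i s = fresh b n ∨ Ineq p (cs a i s)) →
  ¬ Known a ∧ Ineq p a ∧ ∀ e, Best p a e → ∃ e', e = ((i, s, e') : Edge b (n + 1)) ∧
    Best p (cs a i s) e'

/-- M7, S_D0 (the branches in `F` fresh, all others closed; from `S_BAS`, `S_FR`, `S_FAC` with
`F.erase i`). The value is `p q ^ (k - 1) ρ ^ n` on the fresh branches, `k = F.card`, and zero on the
closed ones; `X = 1 - q ^ k`. If `F` is not everything, `p q ^ (k - 1) ρ ^ n > ρ ^ (n + 1)`,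
`X / p < 1`, and `ρ ^ (n + 1) (1 - X) / (1 - p) = p q ^ (k - 1) ρ ^ n`. -/
def S_D0 : Prop := ∀ (b : ℕ) (p : ℝ), Crit b p → ∀ (n : ℕ) (F : Finset (Fin b))
  (a : Edge b (n + 1) → Option Bool), (∀ j ∈ F, ∀ s, cs a j s = fresh b n) →
  (∀ j, j ∉ F → px p (cs a j false) = 0 ∨ px p (cs a j true) = 0) →
  (F = ∅ → Known a) ∧ (F.Nonempty → ¬ Known a ∧ (a = fresh b (n + 1) ∨ Ineq p a) ∧
    ∀ e, Best p a e → ∃ i ∈ F, ∃ (s : Bool) (e' : Edge b n), e = ((i, s, e') : Edge b (n + 1)) ∧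
      Best p (fresh b n) e')

open Classical in
/-- `Q` holds for all states which the algorithm visits before it stops. -/
def Every {b n : ℕ} (Q : (Edge b n → Option Bool) → Prop) :
    Tree (Edge b n) → (Edge b n → Option Bool) → Prop
  | .stop, _ => True
  | .ask e t u, a => Q a ∧ Every Q t (Function.update a e (some false)) ∧
      Every Q u (Function.update a e (some true))

/-- The claim for `H n`. -/
def Thm (b : ℕ) (p : ℝ) (n : ℕ) : Prop := ∀ t, Runs p t (fresh b n) →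
  cost p t = (1 + 1 / p) ^ n ∧ Every (fun a => a = fresh b n ∨ Ineq p a) t (fresh b n)

/-- M8, S_IND (induction; from `S_BAS`, `S_FR`, `S_D0`, `S_D1`, `S_D2`). Let `κ = (1 + 1 / p) ^ n`,
`V k = κ (1 + p) (1 - (1 - p ^ 2) ^ k) / p ^ 2` (so `V (k + 1) = κ (1 + p) + (1 - p ^ 2) V k`, and
`V b = κ (1 + 1 / p)`). Call a state `a'` of `H n` hereditary if for all `t'` with `Runs p t' a'`:
`Every (fresh ∨ Ineq) t' a'`; it passes to the states after the query of a best edge (`S_BAS` (6)),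
and holds for `fresh` by `Thm b p n`. Claims, for `a` a state of `H (n + 1)`, `Runs p t a`,
`k = F.card`; all states visited are `fresh` or satisfy `Ineq`:
(0) branches of `F` fresh, others closed: `cost t = V k`.
(1) `Ctx p F i a`, `cs a i (!s)` fresh, `a' = cs a i s` hereditary and different from `fresh`: there
is `t'` with `Runs p t' a'` and `cost t = cost t' + x (κ + (1 - p) V k) + (1 - x) V k`,
`x = px a' / pf a'`.
(2) `Ctx p F i a`, `cs a i (!s)` open, `a' = cs a i s` hereditary: there is `t'` with `Runs p t' a'`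
and `cost t = cost t' + (1 - x) V k`.
Proof: induction on `k`; for given `k` first (2), by induction on `t`, then (1), by induction on `t`
(if `a'` is known and open, use (2) for the half `!s`, `cost t' = κ` by `Thm b p n` and `x = p`),
then (0) for `k + 1`: the first query is `(i, s, e')`, `e'` best in `fresh`; use (1) for both answers,
`t' = ask e' t₀' t₁'`, `p x₀ + (1 - p) x₁ = p` by `S_BAS` (2). -/
def S_IND : Prop := ∀ (b : ℕ) (p : ℝ), Crit b p → ∀ n : ℕ, Thm b p n → Thm b p (n + 1)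

/-- The result. -/
def S_MP : Prop := ∀ (b : ℕ), 2 ≤ b → ∃ pc : ℝ, 0 < pc ∧ pc < 1 ∧
  (∀ p : ℝ, 0 ≤ p → p < pc →
    Tendsto (fun n : ℕ => (iid (coin (1 - p)) b n).real {w | across w = 0}) atTop (𝓝 0)) ∧
  (∀ p : ℝ, pc < p → p ≤ 1 →
    Tendsto (fun n : ℕ => (iid (coin (1 - p)) b n).real {w | across w = 0}) atTop (𝓝 1)) ∧
  (∀ n : ℕ, (∀ e : Edge b n, Best pc (fun _ => none) e) ∧
    (∃ t : Tree (Edge b n), Runs pc t fun _ => none) ∧
    ∀ t : Tree (Edge b n), (Runs pc t fun _ => none) →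
      ∫ w, (steps t w : ℝ) ∂(iid (coin (1 - pc)) b n) = (1 + 1 / pc) ^ n) ∧
  ∃ ε : ℝ, 0 < ε ∧ ∀ n : ℕ, (1 + 1 / pc) ^ n ≤ (Fintype.card (Edge b n) : ℝ) ^ (1 - ε)

end

end Pool.Agent.N988.ET
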