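import Mathlib
import Pool.Agent.N988.ET.Stm

/-!
# Domination, fresh branches
-/

open MeasureTheory Set Filter
open scoped Topology
open Pool.Agent.N988.EA Pool.Agent.N988.EC Pool.Agent.N988.EP Pool.Agent.N988.ES

namespace Pool.Agent.N988.ET

theorem edge_nonempty {b : ℕ} (hb : 1 ≤ b) : ∀ n : ℕ, Nonempty (Edge b n)
  | 0 => ⟨()⟩
  | n + 1 => by
    obtain ⟨e⟩ := edge_nonempty hb n
    exact ⟨((⟨0, hb⟩ : Fin b), false, e)⟩

theorem t_D0 (h1 : S_B1) (h2 : S_FR) (h3 : S_FAC) : S_D0 := by
  classical
  intro b p hc n F a hF hN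
  have hb2 := hc.two
  have hb : 1 ≤ b := by omega
  have hp := hc.pos
  have hp1 := hc.lt
  obtain ⟨f1, f2, f3⟩ := h2 b p hc n
  have hq0 : 0 < 1 - p ^ 2 := by nlinarith
  have hq1 : 1 - p ^ 2 < 1 := by nlinarith
  have hqb : (1 - p ^ 2) ^ b = 1 - p := by linarith [hc.fix]
  have hK := (h1 b (n + 1) hb p hp hp1).2.2.1
  have hP := (h1 b (n + 1) hb p hp hp1).2.2.2.1
  refine ⟨fun h0 => ?_, fun hne => ?_⟩
  · subst h0
    have i : Fin b := ⟨0, hb⟩
    obtain ⟨c, c0, g1, g2, -⟩ := h3 b p hc n ∅ i a ⟨by simp, by simp, fun j hj _ => hN j hj⟩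
    have hz : px p (cs a i false) * px p (cs a i true) = 0 := by
      rcases hN i (by simp) with h | h <;> rw [h] <;> ring
    rw [hK]
    left
    rw [hz] at g2
    simp only [Finset.card_empty, pow_zero, mul_one, sub_zero] at g2
    linarith
  · obtain ⟨i, hi⟩ := hne
    have hctx : Ctx p (F.erase i) i a := ⟨by simp, fun j hj => hF j (Finset.mem_of_mem_erase hj),
      fun j hj hji => hN j fun h => hj (Finset.mem_erase.2 ⟨hji, h⟩)⟩
    obtain ⟨c, c0, g1, g2, g3, -, g5⟩ := h3 b p hc n (F.erase i) i a hctx
    have hcard : (F.erase i).card = F.card - 1 := Finset.card_erase_of_mem hi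
    have hk1 : 1 ≤ F.card := Finset.card_pos.2 ⟨i, hi⟩
    rw [hcard] at g2 g3
    rw [hF i hi, hF i hi, f1] at g1
    rw [hF i hi, hF i hi, f1, f2] at g2
    simp only [mul_one] at g1 g2
    have g3' : ∀ s e, pp p a ((i, s, e) : Edge b (n + 1)) =
        c * (1 - p ^ 2) ^ (F.card - 1) * (rho b p ^ n * p) := by
      intro s e
      rw [g3, hF i hi, hF i hi, f2, f3]
    have hrho : 0 < rho b p := mul_pos hp (pow_pos hq0 _)
    have hval : 0 < c * (1 - p ^ 2) ^ (F.card - 1) * (rho b p ^ n * p) := by positivity
    have hnone : ∀ s e, a ((i, s, e) : Edge b (n + 1)) = none := by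
      intro s e
      exact congrFun (hF i hi s) e
    obtain ⟨e₀⟩ := edge_nonempty hb n
    refine ⟨fun hk => ?_, ?_, ?_⟩
    · have h4 := (hP a ((i, false, e₀) : Edge b (n + 1))).2 (hnone _ _) hk
      rw [g3'] at h4
      exact hval.ne' h4
    · by_cases hu : F = Finset.univ
      · left
        funext e
        obtain ⟨j, s, e'⟩ := e
        exact congrFun (hF j (by rw [hu]; simp) s) e'
      · right
        have hlt : F.card < b := by
          have h5 := Finset.card_lt_univ_of_notMem (s := F)
            (x := (not_forall.1 (fun h => hu (Finset.eq_univ_iff_forall.2 h))).choose)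
            (not_forall.1 (fun h => hu (Finset.eq_univ_iff_forall.2 h))).choose_spec
          simpa using h5
        obtain ⟨k, hk⟩ : ∃ k, F.card = k + 1 := ⟨F.card - 1, by omega⟩
        rw [hk] at hlt g2 g3' hval
        simp only [Nat.add_sub_cancel] at g2 g3' hval
        have hq : (1 - p ^ 2) ^ b = (1 - p ^ 2) ^ (b - 1) * (1 - p ^ 2) := by
          rw [← pow_succ]
          congr 1
          omega
        have hqlt : (1 - p ^ 2) ^ (b - 1) < (1 - p ^ 2) ^ k :=
          pow_lt_pow_right_of_lt_one₀ hq0 hq1 (by omega)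
        have hqk : 1 - p < (1 - p ^ 2) ^ (k + 1) := by
          rw [← hqb]
          exact pow_lt_pow_right_of_lt_one₀ hq0 hq1 hlt
        have hA : 0 < rho b p ^ n := pow_pos hrho _
        set Q := (1 - p ^ 2) ^ k with hQ
        have hQ0 : 0 < Q := pow_pos hq0 _
        have hqk' : 1 - p < Q * (1 - p ^ 2) := by
          rw [hQ, ← pow_succ]
          exact hqk
        have hr : rho b p ^ (n + 1) = rho b p ^ n * (p * (1 - p ^ 2) ^ (b - 1)) := by
          rw [pow_succ]
          rfl
        set B := (1 - p ^ 2) ^ (b - 1) with hB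
        have hB0 : 0 < B := pow_pos hq0 _
        have hBq : B * (1 - p ^ 2) = 1 - p := by rw [← hqb, hq]
        set A := rho b p ^ n with hAdef
        refine ⟨((i, false, e₀) : Edge b (n + 1)), hnone _ _, ?_, ?_, ?_⟩
        · rw [g3', g2, hr]
          have h6 : A * (p * B) * (c * Q * (1 - p * p)) =
              (1 - p) * (c * Q * (A * p)) := by
            have h7 : B * (1 - p * p) = 1 - p := by rw [← hBq]; ring
            calc A * (p * B) * (c * Q * (1 - p * p)) = A * p * c * Q * (B * (1 - p * p)) := by ring
              _ = (1 - p) * (c * Q * (A * p)) := by rw [h7]; ring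
          exact h6.le
        · rw [g3', hr]
          have hpx : px p a = c * (1 - Q * (1 - p * p)) := by linarith
          rw [hpx]
          have h8 : 1 - Q * (1 - p * p) < p := by
            have : Q * (1 - p * p) = Q * (1 - p ^ 2) := by ring
            linarith
          have h9 : B * (1 - Q * (1 - p * p)) < Q * p := by
            rcases le_or_gt (1 - Q * (1 - p * p)) 0 with h | h
            · have : B * (1 - Q * (1 - p * p)) ≤ 0 := mul_nonpos_of_nonneg_of_nonpos hB0.le h
              have : 0 < Q * p := by positivity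
              linarith
            · calc B * (1 - Q * (1 - p * p)) < Q * (1 - Q * (1 - p * p)) :=
                    mul_lt_mul_of_pos_right hqlt h
                _ < Q * p := mul_lt_mul_of_pos_left h8 hQ0
          have h10 : 0 < A * p * c := by positivity
          calc A * (p * B) * (c * (1 - Q * (1 - p * p))) =
                A * p * c * (B * (1 - Q * (1 - p * p))) := by ring
            _ < A * p * c * (Q * p) := mul_lt_mul_of_pos_left h9 h10
            _ = p * (c * Q * (A * p)) := by ring
        · rw [g3', g1, hr]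
          have h10 : 0 < A * p * c := by positivity
          calc A * (p * B) * c = A * p * c * B := by ring
            _ < A * p * c * Q := mul_lt_mul_of_pos_left hqlt h10
            _ = c * Q * (A * p) := by ring
    · intro e he
      obtain ⟨j, s, e'⟩ := e
      by_cases hj : j ∈ F
      · exact ⟨j, hj, s, e', rfl, rfl, fun e'' _ => by rw [f3, f3]⟩
      · exfalso
        have hji : j ≠ i := fun h => hj (h ▸ hi)
        have h11 := g5 j (fun h => hj (Finset.mem_of_mem_erase h)) hji s e' he.1
        have h12 := he.2 ((i, false, e₀) : Edge b (n + 1)) (hnone _ _)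
        rw [g3'] at h12
        have h13 : pp p a ((j, s, e') : Edge b (n + 1)) = 0 := h11
        have h14 : pp p a (j, s, e') = 0 := h11
        rw [h14] at h12
        linarith

end Pool.Agent.N988.ET
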