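import Mathlib
import Pool.Agent.N988.EP.Main

/-!
# The critical probability is the fixed point
-/

open MeasureTheory Set Filter
open scoped Topology
open Pool.Agent.N988.EA Pool.Agent.N988.EC Pool.Agent.N988.EP

namespace Pool.Agent.N988.ET

theorem law_fix {b : ℕ} (hb : 1 ≤ b) {p : ℝ} (h0 : 0 ≤ p) (h1 : p ≤ 1)
    (hf : 1 - (1 - p ^ 2) ^ b = p) (n : ℕ) :
    (iid (coin (1 - p)) b n).real {w | across w = 0} = p := by
  have hA := (k_LOW b hb).1
  have hset : ∀ n, {w : Edge b n → Bool | across w = 0} = {w | Y n w = 0} := by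
    intro n
    ext w
    simp only [mem_setOf_eq, hA n w]
  obtain ⟨hz, hs⟩ := k_LAW b hb p h0 h1
  rw [hset]
  induction n with
  | zero => exact hz
  | succ n ih => rw [(hs n).1, ih, hf]

theorem pc_fix {b : ℕ} (hb : 2 ≤ b) {pc : ℝ}
    (hlt : ∀ p : ℝ, 0 ≤ p → p < pc →
      Tendsto (fun n : ℕ => (iid (coin (1 - p)) b n).real {w | across w = 0}) atTop (𝓝 0))
    (hgt : ∀ p : ℝ, pc < p → p ≤ 1 →
      Tendsto (fun n : ℕ => (iid (coin (1 - p)) b n).real {w | across w = 0}) atTop (𝓝 1)) :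
    1 - (1 - pc ^ 2) ^ b = pc := by
  obtain ⟨p, h0, h1, hf, -⟩ := Pool.Agent.N283.EP.t_FIX b hb
  have hl : ∀ n, (iid (coin (1 - p)) b n).real {w | across w = 0} = p :=
    law_fix (by omega) h0.le h1.le hf
  rcases lt_trichotomy p pc with h | h | h
  · exfalso
    have h2 := hlt p h0.le h
    simp only [hl] at h2
    exact h0.ne' (tendsto_nhds_unique tendsto_const_nhds h2)
  · rw [← h]
    exact hf
  · exfalso
    have h2 := hgt p h h1.le
    simp only [hl] at h2
    exact h1.ne (tendsto_nhds_unique tendsto_const_nhds h2)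

end Pool.Agent.N988.ET
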