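import Mathlib
import Pool.Agent.N988.ET.Stm
import Pool.Agent.N988.ET.Fix

/-!
# The result from the parts
-/

open MeasureTheory Set Filter
open scoped Topology
open Pool.Agent.N988.EA Pool.Agent.N988.EC Pool.Agent.N988.EP Pool.Agent.N988.ES

namespace Pool.Agent.N988.ET

open Classical in
theorem thm_zero (h1 : S_BAS) (h2 : S_FR) {b : ℕ} {p : ℝ} (hc : Crit b p) : Thm b p 0 := by
  intro t ht
  have hb : 1 ≤ b := by have := hc.two; omega
  obtain ⟨e1, e2, -⟩ := h2 b p hc 0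
  have hk : ¬ Known (fresh b 0) := by
    rw [(h1 b 0 hb p hc.pos hc.lt).2.2.1, e1, e2]
    rintro (h | h)
    · exact hc.pos.ne' h
    · exact hc.lt.ne h
  have hU : ∀ (e : Edge b 0) (x : Bool), Known (Function.update (fresh b 0) e (some x)) := by
    intro e x w w' h3 h4
    have h5 : w = w' := by
      funext e'
      have h6 : e' = e := rfl
      rw [h6, h3 e x (Function.update_self _ _ _), h4 e x (Function.update_self _ _ _)]
    rw [h5]
  cases t with
  | stop => exact absurd ht hk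
  | ask e t u =>
    obtain ⟨-, -, h3, h4⟩ := ht
    cases t with
    | ask _ _ _ => exact absurd (hU e false) h3.1
    | stop =>
      cases u with
      | ask _ _ _ => exact absurd (hU e true) h4.1
      | stop =>
        refine ⟨?_, Or.inl rfl, trivial, trivial⟩
        simp [cost]

theorem thm_all (h1 : S_BAS) (h2 : S_FR) (h3 : S_IND) {b : ℕ} {p : ℝ} (hc : Crit b p) (n : ℕ) :
    Thm b p n := by
  induction n with
  | zero => exact thm_zero h1 h2 hc
  | succ n ih => exact h3 b p hc n ih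

theorem card_edge (b : ℕ) (n : ℕ) : Fintype.card (Edge b n) = (2 * b) ^ n := by
  induction n with
  | zero => rfl
  | succ n ih =>
    have h : Fintype.card (Edge b (n + 1)) = Fintype.card (Fin b × Bool × Edge b n) := rfl
    rw [h, Fintype.card_prod, Fintype.card_prod, ih, Fintype.card_fin, Fintype.card_bool]
    ring

theorem t_MP' (h1 : S_BAS) (h2 : S_FR) (h3 : S_IND) (b : ℕ) (hb : 2 ≤ b) :
    ∃ pc : ℝ, 0 < pc ∧ pc < 1 ∧ 1 - (1 - pc ^ 2) ^ b = pc ∧
  (∀ p : ℝ, 0 ≤ p → p < pc →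
    Tendsto (fun n : ℕ => (iid (coin (1 - p)) b n).real {w | across w = 0}) atTop (𝓝 0)) ∧
  (∀ p : ℝ, pc < p → p ≤ 1 →
    Tendsto (fun n : ℕ => (iid (coin (1 - p)) b n).real {w | across w = 0}) atTop (𝓝 1)) ∧
  (∀ n : ℕ, (∀ e : Edge b n, Best pc (fun _ => none) e) ∧
    (∃ t : Tree (Edge b n), Runs pc t fun _ => none) ∧
    ∀ t : Tree (Edge b n), (Runs pc t fun _ => none) →
      ∫ w, (steps t w : ℝ) ∂(iid (coin (1 - pc)) b n) = (1 + 1 / pc) ^ n) ∧
  ∃ ε : ℝ, 0 < ε ∧ ∀ n : ℕ, (1 + 1 / pc) ^ n ≤ (Fintype.card (Edge b n) : ℝ) ^ (1 - ε) := by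
  obtain ⟨pc, h0, h4, hlt, hgt, -⟩ := k_FP b hb
  have hfix := pc_fix hb hlt hgt
  have hc : Crit b pc := ⟨hb, h0, h4, hfix⟩
  have hb1 : 1 ≤ b := by omega
  refine ⟨pc, h0, h4, hfix, hlt, hgt, fun n => ⟨fun e => ⟨rfl, fun e' _ => ?_⟩, ?_, fun t ht => ?_⟩,
    ?_⟩
  · have h5 := (h2 b pc hc n).2.2
    exact (h5 e').le.trans (h5 e).ge
  · exact (h1 b n hb1 pc h0 h4).2.2.2.2.2.1 _
  · rw [(h1 b n hb1 pc h0 h4).2.2.2.2.2.2 t _ ht]
    exact (thm_all h1 h2 h3 hc n t ht).1
  · have hb' : (2 : ℝ) ≤ b := by exact_mod_cast hb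
    have hber : 1 - (b : ℝ) * pc ^ 2 ≤ (1 - pc ^ 2) ^ b := by
      have h6 := one_add_mul_le_pow (a := -(pc ^ 2)) (by nlinarith) b
      have h7 : (1 + -(pc ^ 2)) = 1 - pc ^ 2 := by ring
      rw [h7] at h6
      linarith
    have h8 : 1 ≤ b * pc := by
      have h9 : pc ≤ b * pc ^ 2 := by linarith
      nlinarith
    have h10 : 1 / pc ≤ b := by
      rw [div_le_iff₀ h0]
      exact h8
    have hk1 : 1 < 1 + 1 / pc := by
      have : 0 < 1 / pc := by positivity
      linarith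
    have hk2 : 1 + 1 / pc < 2 * b := by linarith
    have hl1 : 0 < Real.log (1 + 1 / pc) := Real.log_pos hk1
    have hl2 : Real.log (1 + 1 / pc) < Real.log (2 * b) :=
      Real.log_lt_log (by linarith) hk2
    refine ⟨1 - Real.log (1 + 1 / pc) / Real.log (2 * b), ?_, fun n => ?_⟩
    · rw [sub_pos, div_lt_one (by linarith)]
      exact hl2
    · rw [card_edge]
      push_cast
      rw [sub_sub_cancel, ← Real.rpow_natCast, ← Real.rpow_natCast, ← Real.rpow_mul (by positivity)]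
      rw [Real.rpow_def_of_pos (by linarith), Real.rpow_def_of_pos (by linarith)]
      apply le_of_eq
      congr 1
      have hD : Real.log (2 * (b : ℝ)) ≠ 0 := (lt_trans hl1 hl2).ne'
      generalize Real.log (1 + 1 / pc) = L
      generalize Real.log (2 * (b : ℝ)) = D at hD
      field_simp

end Pool.Agent.N988.ET
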