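import Pool.Agent.N988.ET.Stm
import Pool.Agent.N988.ES.Main
import Pool.Agent.N545.ET_B1
import Pool.Agent.N286.ET_B2
import Pool.Agent.N323.ET_PROD
import Pool.Agent.N152.ET_FAC
import Pool.Agent.N482.ET_D1
import Pool.Agent.N697.ET_D2
import Pool.Agent.N988.ET.D0
import Pool.Agent.N966.ET_IND
import Pool.Agent.N988.ET.Mp

/-!
# The most-pivotal-site algorithm on hierarchical lattices: assembly
-/

namespace Pool.Agent.N988.ET

open Pool.Agent.N988.ES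

theorem k_B1 : S_B1 := Pool.Agent.N545.ET.t_B1
theorem k_BAS : S_BAS := t_BAS k_B1 (Pool.Agent.N286.ET.t_B2 k_B1)
theorem k_PROD : S_PROD := Pool.Agent.N323.ET.t_PROD k_PIV
theorem k_FR : S_FR := Pool.Agent.N152.ET.t_FR k_PIV k_PROD
theorem k_FAC : S_FAC := Pool.Agent.N152.ET.t_FAC k_B1 k_PROD k_FR
theorem k_D0 : S_D0 := t_D0 k_B1 k_FR k_FAC
theorem k_D1 : S_D1 := Pool.Agent.N482.ET.t_D1 k_B1 k_FR k_FAC
theorem k_D2 : S_D2 := Pool.Agent.N697.ET.t_D2 k_B1 k_FR k_FAC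
theorem k_IND : S_IND := Pool.Agent.N966.ET.t_IND k_BAS k_FR k_D0 k_D1 k_D2

end Pool.Agent.N988.ET
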